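import Pool.Agent.K3h56.E2.Stm2
import Pool.Agent.K3h30.RS.Act
import Pool.Agent.K3h36.RS.APPROX0
import Pool.Agent.K3h25.RS.Trans
import Pool.Agent.K3h44.RS.Dlog

/-!
# A basis of the `χ`-part of `U_{S,T}`
-/

set_option autoImplicit false
set_option linter.unusedSectionVars false

open NumberField IsDedekindDomain

noncomputable section

namespace Pool.Agent.K3h60.E2

open Pool.Agent.K3h30.RS Pool.Agent.K3h56.E2

section alg

variable {M : Type} [CommGroup M]

theorem idx1 (U0 V m : Subgroup M) (hV : V ≤ U0) (hm : m ≤ U0) (hdis : V ⊓ m = ⊥) :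
    (V ⊔ m).relIndex U0 * Nat.card m = V.relIndex U0 := by
  have h1 : V.relIndex (V ⊔ m) * (V ⊔ m).relIndex U0 = V.relIndex U0 :=
    Subgroup.relIndex_mul_relIndex _ _ _ le_sup_left (sup_le hV hm)
  have h2 : V.relIndex (V ⊔ m) = Nat.card m := by
    rw [sup_comm, Subgroup.relIndex_sup_right, ← Subgroup.inf_relIndex_right, hdis,
      Subgroup.relIndex_bot_left]
  rw [← h1, h2, mul_comm]

theorem idx2 (U0 V E : Subgroup M) (hV : V ≤ U0) (hE : E ≤ U0)
    (hker : (powMonoidHom 2 : M →* M).ker = E) (hcard : Nat.card E = 2) (hdis : V ⊓ E = ⊥)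
    (h0 : V.relIndex U0 ≠ 0) :
    (U0.map (powMonoidHom 2)).relIndex U0 = 2 * (V.map (powMonoidHom 2)).relIndex V := by
  have hV2 : V.map (powMonoidHom 2) ≤ V := by
    rintro _ ⟨x, hx, rfl⟩
    exact V.pow_mem hx 2
  have hU2 : U0.map (powMonoidHom 2) ≤ U0 := by
    rintro _ ⟨x, hx, rfl⟩
    exact U0.pow_mem hx 2
  have h1 : (V.map (powMonoidHom 2)).relIndex V * V.relIndex U0 =
      (V.map (powMonoidHom 2)).relIndex U0 := Subgroup.relIndex_mul_relIndex _ _ _ hV2 hV
  have h2 : (V.map (powMonoidHom 2)).relIndex (U0.map (powMonoidHom 2)) *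
      (U0.map (powMonoidHom 2)).relIndex U0 = (V.map (powMonoidHom 2)).relIndex U0 :=
    Subgroup.relIndex_mul_relIndex _ _ _ (Subgroup.map_mono hV) hU2
  have h3 : (V.map (powMonoidHom 2)).relIndex (U0.map (powMonoidHom 2)) =
      (V ⊔ E).relIndex U0 := by
    rw [Subgroup.relIndex_map_map, hker, sup_eq_left.mpr hE]
  have h4 := idx1 U0 V E hV hE hdis
  rw [hcard] at h4
  have h5 : (V ⊔ E).relIndex U0 ≠ 0 := by
    intro h
    rw [h, zero_mul] at h4
    exact h0 h4.symm
  have h6 : (V ⊔ E).relIndex U0 * (U0.map (powMonoidHom 2)).relIndex U0 =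
      (V ⊔ E).relIndex U0 * (2 * (V.map (powMonoidHom 2)).relIndex V) := by
    rw [← h3, h2, ← h1, h3, ← h4]
    ring
  exact Nat.eq_of_mul_eq_mul_left (Nat.pos_of_ne_zero h5) h6

theorem idx3 (V : Subgroup M) (hfg : Group.FG V) (htf : ∀ x ∈ V, ∀ n : ℕ, 0 < n → x ^ n = 1 → x = 1) :
    ∃ (n : ℕ) (x : Fin n → M), Subgroup.closure (Set.range x) = V ∧
      (V.map (powMonoidHom 2)).relIndex V = 2 ^ n := by
  have h1 : AddGroup.FG (Additive V) := GroupFG.iff_add_fg.1 hfg
  have h2 : Module.Finite ℤ (Additive V) := Module.Finite.iff_addGroup_fg.2 h1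
  have h3 : IsAddTorsionFree (Additive V) := by
    refine ⟨fun n hn => ?_⟩
    intro a b hab
    have h : n • (a - b) = 0 := by
      rw [nsmul_sub]
      exact sub_eq_zero.mpr hab
    have h' : (Additive.toMul (a - b) : V) = 1 := by
      have h4 := htf _ (Additive.toMul (a - b)).2 n (Nat.pos_of_ne_zero hn) (by
        have h5 : (Additive.toMul (a - b) : V) ^ n = 1 := by
          rw [← toMul_nsmul, h]; rfl
        rw [← Subgroup.coe_pow, h5]; rfl)
      exact Subtype.ext h4
    have h'' : a - b = 0 := h'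
    exact sub_eq_zero.mp h''
  have h4 : Module.Free ℤ (Additive V) := inferInstance
  let b := Module.finBasis ℤ (Additive V)
  set n := Module.finrank ℤ (Additive V) with hn
  refine ⟨n, fun i => ((Additive.toMul (b i) : V) : M), ?_, ?_⟩
  · apply le_antisymm
    · rw [Subgroup.closure_le]
      rintro _ ⟨i, rfl⟩
      exact (Additive.toMul (b i)).2
    · intro v hv
      have e : (Additive.ofMul (⟨v, hv⟩ : V)) = ∑ i, (b.repr (Additive.ofMul (⟨v, hv⟩ : V)) i) • b i :=
        (b.sum_repr _).symm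
      have e2 : v = ∏ i, (((Additive.toMul (b i) : V) : M)) ^ (b.repr (Additive.ofMul (⟨v, hv⟩ : V)) i) := by
        have e3 := congrArg (fun z : Additive V => ((Additive.toMul z : V) : M)) e
        simp only [toMul_ofMul, toMul_sum, toMul_zsmul] at e3
        rw [Subgroup.val_finsetProd] at e3
        exact e3
      rw [e2]
      exact Subgroup.prod_mem _ fun i _ => Subgroup.zpow_mem _
        (Subgroup.subset_closure (Set.mem_range_self i)) _
  · let φ : Additive V →+ (Fin n → ZMod 2) :=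
      { toFun := fun v i => ((b.repr v i : ℤ) : ZMod 2)
        map_zero' := by ext i; simp
        map_add' := fun v w => by ext i; simp }
    have hsurj : Function.Surjective φ := by
      intro c
      refine ⟨∑ i, ((c i).val : ℤ) • b i, ?_⟩
      ext i
      simp only [φ, AddMonoidHom.coe_mk, ZeroHom.coe_mk, b.repr_sum_self]
      simp
    have hcard : φ.ker.index = 2 ^ n := by
      rw [AddSubgroup.index_ker, AddMonoidHom.range_eq_top.mpr hsurj, AddSubgroup.card_top,
        Nat.card_eq_fintype_card, Fintype.card_fun, ZMod.card, Fintype.card_fin]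
    let ψ : V →* Multiplicative (Fin n → ZMod 2) := AddMonoidHom.toMultiplicativeRight φ
    have hψ : ψ.ker = (V.map (powMonoidHom 2)).subgroupOf V := by
      ext v
      rw [MonoidHom.mem_ker, Subgroup.mem_subgroupOf, Subgroup.mem_map]
      constructor
      · intro h
        have h' : ∀ i, ((b.repr (Additive.ofMul v) i : ℤ) : ZMod 2) = 0 := fun i => congrFun h i
        have h'' : ∀ i, ∃ c : ℤ, b.repr (Additive.ofMul v) i = 2 * c := by
          intro i
          have := (ZMod.intCast_zmod_eq_zero_iff_dvd _ 2).mp (h' i)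
          exact this
        choose c hc using h''
        have e : Additive.ofMul v = 2 • ∑ i, c i • b i := by
          rw [← b.sum_repr (Additive.ofMul v), Finset.smul_sum]
          refine Finset.sum_congr rfl fun i _ => ?_
          rw [hc i, mul_smul, two_smul, two_nsmul]
        refine ⟨((Additive.toMul (∑ i, c i • b i) : V) : M), (Additive.toMul (∑ i, c i • b i)).2, ?_⟩
        have e3 := congrArg (fun z : Additive V => ((Additive.toMul z : V) : M)) e
        simp only [toMul_ofMul, toMul_nsmul, Subgroup.coe_pow] at e3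
        rw [powMonoidHom_apply]
        exact e3.symm
      · rintro ⟨y, hy, hyv⟩
        have e : v = (⟨y, hy⟩ : V) ^ 2 := Subtype.ext (by rw [Subgroup.coe_pow]; exact hyv.symm)
        rw [e, map_pow]
        have : ∀ z : Multiplicative (Fin n → ZMod 2), z ^ 2 = 1 := by
          intro z
          have h : (2 : ℕ) • (Multiplicative.toAdd z) = 0 := by
            ext i
            simp only [Pi.smul_apply, Pi.zero_apply, nsmul_eq_mul]
            have : ((2 : ℕ) : ZMod 2) = 0 := rfl
            rw [this, zero_mul]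
          exact h
        exact this _
    have h5 : ψ.ker.index = 2 ^ n := by
      rw [← hcard]
      rfl
    rw [hψ] at h5
    exact h5

end alg

section nt

variable {F H G : Type} [Field F] [NumberField F] [Field H] [NumberField H] [Algebra F H]
  [CommGroup G] [Finite G] [MulSemiringAction G H]

/-- a root of unity of prime order in `U_{S,T}`: the residue characteristics -/
theorem ringChar_eq (T : Finset (HeightOneSpectrum (𝓞 F))) (S : Set (HeightOneSpectrum (𝓞 F)))
    {y : Hˣ} (hyU : y ∈ unitGroup (F := F) S (T : Set (HeightOneSpectrum (𝓞 F)))) {p : ℕ}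
    (hp : p.Prime) (hyp : y ^ p = 1) (hy1 : y ≠ 1) (v : HeightOneSpectrum (𝓞 F)) (hv : v ∈ T) :
    ringChar (𝓞 F ⧸ v.asIdeal) = p := by
  obtain ⟨w, hw⟩ := (Pool.Agent.K3h25.RS.t_OVER F H v).1
  have hwT : Above (T : Set (HeightOneSpectrum (𝓞 F))) w := (above_iff hw).2 hv
  have hval : w.valuation H ((y : H) - 1) < 1 := hyU.2 w hwT
  have hyv : w.valuation H (y : H) = 1 := by
    have h := Valuation.map_one_add_of_lt (w.valuation H) hval
    rwa [add_sub_cancel] at h
  have hyH1 : (y : H) ≠ 1 := fun h => hy1 (Units.ext h)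
  have hypH : (y : H) ^ p = 1 := by
    rw [← Units.val_pow_eq_pow_val, hyp, Units.val_one]
  have hgeom : ∑ i ∈ Finset.range p, (y : H) ^ i = 0 := by
    have h1 := geom_sum_mul (y : H) p
    rw [hypH, sub_self] at h1
    rcases mul_eq_zero.mp h1 with h | h
    · exact h
    · exact absurd (sub_eq_zero.mp h) hyH1
  have hpow : ∀ i : ℕ, w.valuation H ((y : H) ^ i - 1) < 1 := by
    intro i
    rw [← mul_geom_sum, map_mul]
    have h2 : w.valuation H (∑ k ∈ Finset.range i, (y : H) ^ k) ≤ 1 := by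
      refine Valuation.map_sum_le _ fun k _ => ?_
      rw [map_pow, hyv, one_pow]
    calc w.valuation H ((y : H) - 1) * w.valuation H (∑ k ∈ Finset.range i, (y : H) ^ k)
        ≤ w.valuation H ((y : H) - 1) * 1 := mul_le_mul_right h2 _
      _ < 1 := by rwa [mul_one]
  have hpval : w.valuation H ((p : ℕ) : H) < 1 := by
    have h1 : ((p : ℕ) : H) = -∑ i ∈ Finset.range p, ((y : H) ^ i - 1) := by
      rw [Finset.sum_sub_distrib, hgeom, Finset.sum_const, Finset.card_range, nsmul_one]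
      ring
    rw [h1, Valuation.map_neg]
    exact Valuation.map_sum_lt _ one_ne_zero fun i _ => hpow i
  have hpw : ((p : ℕ) : 𝓞 H) ∈ w.asIdeal := by
    rw [← HeightOneSpectrum.valuation_lt_one_iff_mem (K := H)]
    have h1 : ((((p : ℕ) : 𝓞 H)) : H) = ((p : ℕ) : H) := map_natCast (algebraMap (𝓞 H) H) p
    have h2 : w.valuation H ((((p : ℕ) : 𝓞 H)) : H) < 1 := by
      rw [h1]
      exact hpval
    exact h2
  have hpv : ((p : ℕ) : 𝓞 F) ∈ v.asIdeal := by
    rw [← above_singleton.1 hw, Ideal.mem_comap, map_natCast]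
    exact hpw
  have := v.isMaximal
  have : Nontrivial (𝓞 F ⧸ v.asIdeal) := Ideal.Quotient.nontrivial_iff.mpr v.isPrime.ne_top
  have h0 : ((p : ℕ) : 𝓞 F ⧸ v.asIdeal) = 0 := by
    have h1 : (Ideal.Quotient.mk v.asIdeal) ((p : ℕ) : 𝓞 F) = 0 :=
      Ideal.Quotient.eq_zero_iff_mem.mpr hpv
    rwa [map_natCast] at h1
  have hdvd := ringChar.dvd h0
  rcases (Nat.dvd_prime hp).mp hdvd with h | h
  · exfalso
    have h2 : ((1 : ℕ) : 𝓞 F ⧸ v.asIdeal) = 0 := by
      rw [ringChar.spec, h]
    rw [Nat.cast_one] at h2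
    exact one_ne_zero h2
  · exact h

/-- `U_{S,T}` is torsion free for admissible `T` -/
theorem tfU [IsGaloisGroup G F H] (D : RubinData F H G) (T : Finset (HeightOneSpectrum (𝓞 F)))
    (hT : D.Allowed T) (x : Hˣ) (hx : x ∈ D.U T) (n : ℕ) (hn : 0 < n) (hxn : x ^ n = 1) :
    x = 1 := by
  by_contra hx1
  have hfin : IsOfFinOrder x := isOfFinOrder_iff_pow_eq_one.mpr ⟨n, hn, hxn⟩
  have hn0 : 0 < orderOf x := hfin.orderOf_pos
  have hn1 : orderOf x ≠ 1 := fun h => hx1 (orderOf_eq_one_iff.mp h)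
  obtain ⟨p, hp, hpn⟩ := Nat.exists_prime_and_dvd hn1
  obtain ⟨m, hm⟩ := hpn
  have hm0 : 0 < m := by
    rcases Nat.eq_zero_or_pos m with h | h
    · rw [h, mul_zero] at hm
      omega
    · exact h
  set y : Hˣ := x ^ m with hy
  have hyU : y ∈ D.U T := Subgroup.pow_mem _ hx m
  have hyp : y ^ p = 1 := by
    rw [hy, ← pow_mul, mul_comm m p, ← hm, pow_orderOf_eq_one]
  have hy1 : y ≠ 1 := by
    intro h
    have h1 := orderOf_dvd_of_pow_eq_one (hy ▸ h : x ^ m = 1)
    have h2 := Nat.le_of_dvd hm0 h1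
    have h3 : 2 * m ≤ p * m := Nat.mul_le_mul_right m hp.two_le
    omega
  have hchar := fun v hv => ringChar_eq T _ hyU hp hyp hy1 v hv
  rcases hT.2 with ⟨v, hv, v', hv', h⟩ | ⟨v, hv, h⟩
  · exact h ((hchar v hv).trans (hchar v' hv').symm)
  · have hvS : v ∉ D.S := fun h' => Finset.disjoint_left.mp hT.1 h' hv
    refine Pool.Agent.K3h36.RS.t_NOZETA F H v (D.unramified v hvS) h ⟨(y : H), ?_, ?_⟩
    · rw [hchar v hv, ← Units.val_pow_eq_pow_val, hyp, Units.val_one]
    · exact fun h => hy1 (Units.ext h)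

/-- the powers of a unit outside `S` which are in `U_{S,T}` -/
theorem exists_pow [IsGaloisGroup G F H] (D : RubinData F H G)
    (T : Finset (HeightOneSpectrum (𝓞 F))) (hT : Disjoint D.S T) (x : Hˣ) (hx : x ∈ D.U ∅) :
    ∃ n : ℕ, 0 < n ∧ x ^ n ∈ D.U T := by
  classical
  have hfin : {w : HeightOneSpectrum (𝓞 H) | Above (T : Set (HeightOneSpectrum (𝓞 F))) w}.Finite := by
    have : {w : HeightOneSpectrum (𝓞 H) | Above (T : Set (HeightOneSpectrum (𝓞 F))) w} =
        ⋃ v ∈ T, {w : HeightOneSpectrum (𝓞 H) | Above {v} w} := by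
      ext w
      simp only [Set.mem_iUnion]
      constructor
      · intro h
        obtain ⟨v, hv, h'⟩ := above_mem h
        exact ⟨v, hv, h'⟩
      · rintro ⟨v, hv, h'⟩
        exact (above_iff h').2 hv
    rw [this]
    exact Set.Finite.biUnion T.finite_toSet (fun v _ => (Pool.Agent.K3h25.RS.t_OVER F H v).2)
  have hone : ∀ w : HeightOneSpectrum (𝓞 H), 0 < Ideal.absNorm w.asIdeal - 1 := by
    intro w
    have h0 : Ideal.absNorm w.asIdeal ≠ 0 := by
      rw [Ne, Ideal.absNorm_eq_zero_iff]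
      exact w.ne_bot
    have h1 : Ideal.absNorm w.asIdeal ≠ 1 := by
      rw [Ne, Ideal.absNorm_eq_one_iff]
      exact w.isPrime.ne_top
    omega
  refine ⟨∏ w ∈ hfin.toFinset, (Ideal.absNorm w.asIdeal - 1),
    Finset.prod_pos fun w _ => hone w, (Subgroup.pow_mem _ hx _).1, ?_⟩
  intro w hw
  obtain ⟨k, hk⟩ := Finset.dvd_prod_of_mem
    (fun w : HeightOneSpectrum (𝓞 H) => Ideal.absNorm w.asIdeal - 1)
    ((Set.Finite.mem_toFinset hfin).2 hw)
  have hxw : w.valuation H (x : H) = 1 := by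
    refine hx.1 w fun hS => ?_
    obtain ⟨v, hv, hvw⟩ := above_mem hw
    have h1 := (above_iff hvw).1 hS
    exact Finset.disjoint_left.mp hT h1 hv
  obtain ⟨χ, h1, h2⟩ := Pool.Agent.K3h44.RS.t_DLOG H w
  have h3 : χ (Additive.ofMul ((⟨x, hxw⟩ : unitsAt w) ^
      (∏ w ∈ hfin.toFinset, (Ideal.absNorm w.asIdeal - 1)))) = 0 := by
    rw [ofMul_pow, map_nsmul, hk, mul_comm, mul_smul, h2, smul_zero]
  rw [h1] at h3
  rw [Units.val_pow_eq_pow_val]
  rw [Subgroup.coe_pow, Units.val_pow_eq_pow_val] at h3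
  exact h3

theorem mem_part {V : Subgroup Hˣ} {χ : G →* ℂˣ} {x : Hˣ} :
    x ∈ part V χ ↔ x ∈ V ∧ (∀ g : G, χ g = 1 → act g x = x) ∧
      ∀ g : G, χ g ≠ 1 → act g x = x⁻¹ := Iff.rfl

theorem t_BASIS : S_BASIS := by
  intro F H G _ _ _ _ _ _ _ _ _ D χ hG T hT r hr
  classical
  set U0 := part (D.U ∅) χ with hU0
  set V := part (D.U T) χ with hV
  set m := part (mu H) χ with hm
  have hfgA : AddGroup.FG (Additive (unitGroup (H := H) (D.S : Set (HeightOneSpectrum (𝓞 F))) ∅)) :=
    fgA Pool.Agent.K3h25.RS.t_OVER D.S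
  have hfin : Module.Finite ℤ (Additive (unitGroup (H := H) (D.S : Set (HeightOneSpectrum (𝓞 F))) ∅)) :=
    Module.Finite.iff_addGroup_fg.2 hfgA
  -- finitely generated subgroups
  have hfg : ∀ W : Subgroup Hˣ, W ≤ unitGroup (H := H) (D.S : Set (HeightOneSpectrum (𝓞 F))) ∅ →
      Group.FG W := by
    intro W hW
    let f : Additive W →+ Additive (unitGroup (H := H) (D.S : Set (HeightOneSpectrum (𝓞 F))) ∅) :=
      MonoidHom.toAdditive (Subgroup.inclusion hW)
    have hinj : Function.Injective f.toIntLinearMap := by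
      intro x y hxy
      apply Additive.toMul.injective
      exact Subgroup.inclusion_injective hW (Additive.ofMul.injective hxy)
    have h1 : Module.Finite ℤ (Additive W) := Module.Finite.of_injective _ hinj
    have h2 : AddGroup.FG (Additive W) := Module.Finite.iff_addGroup_fg.1 h1
    exact GroupFG.iff_add_fg.2 h2
  have hUe : D.U ∅ = unitGroup (H := H) (D.S : Set (HeightOneSpectrum (𝓞 F))) ∅ := by
    show unitGroup _ _ = _
    rw [Finset.coe_empty]
  have hUle : D.U T ≤ D.U ∅ := by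
    intro x hx
    refine ⟨hx.1, fun w hw => ?_⟩
    obtain ⟨v, hv, -⟩ := hw
    exact absurd hv (by simp)
  have hU0le : U0 ≤ unitGroup (H := H) (D.S : Set (HeightOneSpectrum (𝓞 F))) ∅ := by
    rw [← hUe]
    exact fun x hx => hx.1
  have hVU : V ≤ U0 := fun x hx => ⟨hUle hx.1, hx.2⟩
  have hVfg : Group.FG V := hfg V (hVU.trans hU0le)
  have hU0fg : Group.FG U0 := hfg U0 hU0le
  have htfV : ∀ x ∈ V, ∀ n : ℕ, 0 < n → x ^ n = 1 → x = 1 :=
    fun x hx n hn h => tfU D T hT x hx.1 n hn h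
  -- roots of unity are units
  have hmuU : ∀ x : Hˣ, IsOfFinOrder x → x ∈ D.U ∅ := by
    intro x hx
    obtain ⟨n, hn, hxn⟩ := isOfFinOrder_iff_pow_eq_one.mp hx
    refine ⟨fun w _ => ?_, fun w hw => ?_⟩
    · have h : w.valuation H (x : H) ^ n = 1 := by
        rw [← map_pow, ← Units.val_pow_eq_pow_val, hxn, Units.val_one, map_one]
      exact (pow_eq_one_iff.1 h).resolve_right hn.ne'
    · obtain ⟨v, hv, -⟩ := hw
      exact absurd hv (by simp)
  have hmU : m ≤ U0 := fun x hx => ⟨hmuU x hx.1, hx.2⟩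
  have hdis : V ⊓ m = ⊥ := by
    rw [eq_bot_iff]
    rintro x ⟨hx, hx'⟩
    obtain ⟨n, hn, hxn⟩ := isOfFinOrder_iff_pow_eq_one.mp hx'.1
    exact Subgroup.mem_bot.2 (htfV x hx n hn hxn)
  -- finite index
  have hidx : V.relIndex U0 ≠ 0 := by
    have htor : ∀ q : U0 ⧸ V.subgroupOf U0, IsOfFinOrder q := by
      intro q
      obtain ⟨x, rfl⟩ := QuotientGroup.mk_surjective q
      obtain ⟨n, hn, hxn⟩ := exists_pow D T hT.1 (x : Hˣ) x.2.1
      refine isOfFinOrder_iff_pow_eq_one.mpr ⟨n, hn, ?_⟩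
      rw [← QuotientGroup.mk_pow, QuotientGroup.eq_one_iff, Subgroup.mem_subgroupOf,
        Subgroup.coe_pow]
      exact ⟨hxn, (U0.pow_mem x.2 n).2⟩
    have : Finite (U0 ⧸ V.subgroupOf U0) :=
      CommGroup.finite_of_fg_isMulTorsion (U0 ⧸ V.subgroupOf U0) (fun q => by
        obtain ⟨n, hn, h⟩ := isOfFinOrder_iff_pow_eq_one.mp (htor q)
        exact isOfFinOrder_iff_pow_eq_one.mpr ⟨n, hn, h⟩)
    exact Subgroup.index_ne_zero_of_finite
  -- the elements of order two
  set E : Subgroup Hˣ := (powMonoidHom 2 : Hˣ →* Hˣ).ker with hE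
  have hEmem : ∀ x : Hˣ, x ∈ E ↔ x = 1 ∨ x = -1 := by
    intro x
    rw [hE, MonoidHom.mem_ker, powMonoidHom_apply]
    constructor
    · intro h
      have h1 : (x : H) ^ 2 = 1 := by
        rw [← Units.val_pow_eq_pow_val, h, Units.val_one]
      rcases (sq_eq_sq_iff_eq_or_eq_neg.mp (h1.trans (one_pow 2).symm)) with h2 | h2
      · exact Or.inl (Units.ext h2)
      · refine Or.inr (Units.ext ?_)
        rw [Units.val_neg, Units.val_one]
        exact h2
    · rintro (rfl | rfl)
      · exact one_pow 2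
      · exact neg_one_sq
  have hEU : E ≤ U0 := by
    intro x hx
    rcases (hEmem x).1 hx with rfl | rfl
    · exact U0.one_mem
    · have h1 : ∀ g : G, act g (-1 : Hˣ) = -1 := by
        intro g
        ext
        rw [act_val, Units.val_neg, Units.val_one, smul_neg, smul_one]
      refine ⟨hmuU _ (isOfFinOrder_iff_pow_eq_one.mpr ⟨2, two_pos, neg_one_sq⟩),
        fun g _ => h1 g, fun g _ => ?_⟩
      rw [h1 g, inv_neg, inv_one]
  have hEV : V ⊓ E = ⊥ := by
    rw [eq_bot_iff]
    rintro x ⟨hx, hx'⟩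
    exact Subgroup.mem_bot.2 (htfV x hx 2 two_pos hx')
  have hEcard : Nat.card E = 2 := by
    have h1 : (E : Set Hˣ) = {1, -1} := by
      ext x
      exact hEmem x
    have h2 : (1 : Hˣ) ≠ -1 := by
      intro h
      have h3 := congrArg (fun z : Hˣ => (z : H)) h
      simp only [Units.val_one, Units.val_neg] at h3
      have h4 : (2 : H) = 0 := by linear_combination h3
      exact two_ne_zero h4
    have h3 : Nat.card E = (E : Set Hˣ).ncard := rfl
    rw [h3, h1, Set.ncard_pair h2]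
  obtain ⟨n, x, hx, hn⟩ := idx3 V hVfg htfV
  have h2 := idx2 U0 V E hVU hEU rfl hEcard hEV hidx
  rw [hr, hn, mul_comm, ← pow_succ] at h2
  have hnr : r = n := by
    have := Nat.pow_right_injective (le_refl 2) h2
    omega
  subst hnr
  refine ⟨x, hx, ?_⟩
  rw [hx]
  exact idx1 U0 V m hVU hmU hdis

end nt

end Pool.Agent.K3h60.E2
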